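import Pool.Agent.W312.WT.Stm

/-!
# The rounded times satisfy the basic inequality
-/

set_option autoImplicit false

namespace Pool.Agent.W359.WT

open Pool.Agent.W312.WT

lemma lat_add {p : ℕ} {S : Set ℤ} (h : Lat p S) {s : ℤ} (hs : s ∈ S) : s + p ∈ S := by
  have h1 := h.refl 0 s hs
  have h2 := h.refl 1 _ h1
  have e : (1 : ℤ) * p - (0 * p - s) = s + p := by ring
  rwa [e] at h2

/-- neighbours have distance at most `p` -/
lemma nb {p : ℕ} {S : Set ℤ} (hp : 1 ≤ p) (h : Lat p S) {c c' : ℤ} (hc : c ∈ S)
    (hn : ∀ s ∈ S, s < c' → s ≤ c) : c' ≤ c + p := by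
  by_contra hcon
  push Not at hcon
  have := hn (c + p) (lat_add h hc) hcon
  have hp' : (1 : ℤ) ≤ p := by exact_mod_cast hp
  omega

theorem proof_SSrf : Pool.Agent.W312.WT.SSrf := by
  intro p n S y hp hL hy0 hS hN hJ u hu v hv huv huv'
  set A := (Finset.range (n + 1)).filter fun i => i ≠ v ∧ y i ≤ y u with hA
  have hp' : (1 : ℤ) ≤ p := by exact_mod_cast hp
  have hp0 : (0 : ℤ) ≤ p := by omega
  have hmem : ∀ i, i ∈ A ↔ i ≤ n ∧ i ≠ v ∧ y i ≤ y u := by
    intro i
    rw [hA, Finset.mem_filter, Finset.mem_range]
    constructor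
    · rintro ⟨h1, h2⟩
      exact ⟨by omega, h2⟩
    · rintro ⟨h1, h2⟩
      exact ⟨by omega, h2⟩
  have huA : u ∈ A := (hmem u).2 ⟨hu, huv, le_rfl⟩
  obtain ⟨M, hMA, hmax⟩ := Finset.exists_max_image A (fun i => i) ⟨u, huA⟩
  obtain ⟨hMn, hMv, hMs⟩ := (hmem M).1 hMA
  set s := y u with hs
  set k := A.card with hk
  have hsub : A ⊆ Finset.range (M + 1) := by
    intro i hi
    have := hmax i hi
    rw [Finset.mem_range]
    omega
  have hkM1 : k ≤ M + 1 := by
    have := Finset.card_le_card hsub
    rwa [Finset.card_range] at this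
  have hsS : s ∈ S := (hS u hu).1
  have hs0 : 0 ≤ s := (hS u hu).2
  rcases lt_or_gt_of_ne hMv with hlt | hgt
  · -- case 1 : `M < v`
    have hJM := hJ M (by omega)
    by_cases hle : y (M + 1) ≤ y v
    · have h1 : (p : ℤ) * k ≤ ((M : ℤ) + 1) * p := by
        have : (k : ℤ) ≤ M + 1 := by exact_mod_cast hkM1
        nlinarith
      linarith
    push Not at hle
    have hvM : M + 1 < v := by
      rcases Nat.lt_or_ge (M + 1) v with h | h
      · exact h
      · exfalso
        have : v = M + 1 := by omega
        rw [this] at hle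
        exact lt_irrefl _ hle
    have h1 : ∀ t ∈ S, t < y (M + 1) → t ≤ y v := fun t ht h => hN (M + 1) v hvM hv t ht h
    have hc'S : y (M + 1) ∈ S := (hS (M + 1) (by omega)).1
    have hcS : y v ∈ S := (hS v hv).1
    have h2 : y (v - 1) ≤ y (M + 1) := by
      by_contra hcon
      push Not at hcon
      have := hN (v - 1) v (by omega) hv (y (M + 1)) hc'S hcon
      omega
    have h3 := hJ (v - 1) (by omega)
    have e1 : v - 1 + 1 = v := by omega
    rw [e1] at h3
    have e2 : ((v - 1 : ℕ) : ℤ) + 1 = v := by omega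
    rw [e2] at h3
    have h4 : ((M : ℤ) + 2) * p ≤ y v + y (M + 1) := by
      have : (M : ℤ) + 2 ≤ v := by exact_mod_cast hvM
      nlinarith
    have h5 := nb hp hL hcS h1
    by_contra hcon
    push Not at hcon
    rcases Nat.lt_or_ge M k with hkM | hkM
    · -- `k = M + 1`
      have hkeq : k = M + 1 := by omega
      have hAeq : A = Finset.range (M + 1) :=
        Finset.eq_of_subset_of_card_le hsub (by rw [Finset.card_range]; omega)
      have h6 : (M : ℤ) * p ≤ 2 * s := by
        rcases Nat.eq_zero_or_pos M with h0 | h0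
        · rw [h0]
          push_cast
          linarith
        · have hm1 : M - 1 ∈ A := by
            rw [hAeq, Finset.mem_range]
            omega
          have h7 := ((hmem (M - 1)).1 hm1).2.2
          have h8 := hJ (M - 1) (by omega)
          have e3 : M - 1 + 1 = M := by omega
          have e4 : ((M - 1 : ℕ) : ℤ) + 1 = M := by omega
          rw [e3, e4] at h8
          linarith
      have hkc : (k : ℤ) = M + 1 := by exact_mod_cast hkeq
      rw [hkc] at hcon
      have hr : ((M : ℤ) + 1) * p - s ∈ S := hL.refl ((M : ℤ) + 1) s hsS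
      have h9 : y v < ((M : ℤ) + 1) * p - s := by linarith
      have h10 : ((M : ℤ) + 1) * p - s = y (M + 1) := by
        apply le_antisymm
        · linarith
        · by_contra hc2
          push Not at hc2
          have := h1 _ hr hc2
          linarith
      have h11 : 2 * y (M + 1) ≤ ((M : ℤ) + 2) * p := by linarith
      linarith
    · have hkc : (k : ℤ) ≤ M := by exact_mod_cast hkM
      have h6 : (p : ℤ) * k ≤ M * p := by nlinarith
      linarith
  · -- case 2 : `v < M`
    have hkM : k ≤ M := by
      have hsub2 : A ⊆ (Finset.range (M + 1)).erase v := by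
        intro i hi
        rw [Finset.mem_erase]
        exact ⟨((hmem i).1 hi).2.1, hsub hi⟩
      have := Finset.card_le_card hsub2
      rw [Finset.card_erase_of_mem (by rw [Finset.mem_range]; omega), Finset.card_range] at this
      omega
    have hJM := hJ (M - 1) (by omega)
    have e3 : M - 1 + 1 = M := by omega
    have e4 : ((M - 1 : ℕ) : ℤ) + 1 = M := by omega
    rw [e3, e4] at hJM
    have hkc : (k : ℤ) ≤ M := by exact_mod_cast hkM
    have hkp : (p : ℤ) * k ≤ M * p := by nlinarith
    by_cases hv1 : v = M - 1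
    · rw [← hv1] at hJM
      linarith
    by_cases hle : y (M - 1) ≤ s
    · linarith
    push Not at hle
    have hkM1' : k ≤ M - 1 := by
      have hsub2 : A ⊆ ((Finset.range (M + 1)).erase v).erase (M - 1) := by
        intro i hi
        rw [Finset.mem_erase, Finset.mem_erase]
        refine ⟨?_, ((hmem i).1 hi).2.1, hsub hi⟩
        rintro rfl
        have := ((hmem (M - 1)).1 hi).2.2
        omega
      have := Finset.card_le_card hsub2
      rw [Finset.card_erase_of_mem (by
          rw [Finset.mem_erase, Finset.mem_range]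
          exact ⟨fun h => hv1 h.symm, by omega⟩),
        Finset.card_erase_of_mem (by rw [Finset.mem_range]; omega), Finset.card_range] at this
      omega
    have h1 : ∀ t ∈ S, t < y (M - 1) → t ≤ y M :=
      fun t ht h => hN (M - 1) M (by omega) hMn t ht h
    have h2 := h1 s hsS hle
    have h3 : y M = s := le_antisymm hMs h2
    have h5 : y (M - 1) ≤ s + p := nb hp hL hsS (fun t ht h => (h1 t ht h).trans hMs)
    by_cases h6 : y (M - 1) ≤ y v
    · linarith
    push Not at h6
    have h7 := h1 (y v) (hS v hv).1 h6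
    have hkc' : (k : ℤ) ≤ (M : ℤ) - 1 := by omega
    have hkp' : (p : ℤ) * k ≤ ((M : ℤ) - 1) * p := by nlinarith
    linarith

end Pool.Agent.W359.WT
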